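import Pool.Agent.SNP.Iface
import Pool.Agent.Helper59.PR.Low

/-!
# Project SNP, block D1: the frozen statement from the main theorem
-/

set_option autoImplicit false

namespace Pool.Agent.SNP

open Pool.Agent.Helper59.DML Pool.Agent.Helper59.UQ Pool.Agent.Helper59.PR Pool.Agent.Helper59.DX

/-- the coefficients of a binary form. -/
noncomputable def fcf (d : ℕ) (F : MvPolynomial (Fin 2) ℂ) (i : Fin (d + 1)) : ℂ :=
  F.coeff (Finsupp.single 0 (i : ℕ) + Finsupp.single 1 (d - (i : ℕ)))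

theorem form_fcf {F : MvPolynomial (Fin 2) ℂ} {d : ℕ} (hF : F.IsHomogeneous d) (v : Fin 2 → ℂ) :
    form (fcf d F) v = MvPolynomial.eval v F := by
  classical
  set e : Fin (d + 1) → (Fin 2 →₀ ℕ) :=
    fun i => Finsupp.single 0 (i : ℕ) + Finsupp.single 1 (d - (i : ℕ)) with he
  have he0 : ∀ i, e i 0 = (i : ℕ) := fun i => by simp [he]
  have he1 : ∀ i, e i 1 = d - (i : ℕ) := fun i => by simp [he]
  have hinj : Function.Injective e := by
    intro i j hij
    have h1 := he0 i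
    rw [hij, he0 j] at h1
    exact Fin.ext h1.symm
  have hsub : F.support ⊆ Finset.univ.image e := by
    intro m hm
    have h1 := hF (MvPolynomial.mem_support_iff.1 hm)
    rw [Finsupp.weight_apply, Finsupp.sum_fintype _ _ (fun i => by simp)] at h1
    simp only [Fin.sum_univ_two, Pi.one_apply, smul_eq_mul, mul_one] at h1
    rw [Finset.mem_image]
    refine ⟨⟨m 0, by omega⟩, Finset.mem_univ _, ?_⟩
    ext k
    fin_cases k
    · exact he0 _
    · show e ⟨m 0, _⟩ 1 = m 1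
      rw [he1]
      show d - m 0 = m 1
      omega
  rw [MvPolynomial.eval_eq']
  rw [Finset.sum_subset hsub (fun m _ hm => by
    rw [MvPolynomial.notMem_support_iff.1 hm, zero_mul])]
  rw [Finset.sum_image (fun i _ j _ h => hinj h)]
  unfold form fcf
  refine Finset.sum_congr rfl fun i _ => ?_
  rw [Fin.prod_univ_two, he0, he1]
  ring

/-- the coefficients of the lift. -/
noncomputable def lcf (d : ℕ) (F G : MvPolynomial (Fin 2) ℂ) : Fin 2 → Fin (d + 1) → ℂ :=
  ![fcf d F, fcf d G]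

theorem hlift_lcf {F G : MvPolynomial (Fin 2) ℂ} {d : ℕ} (h : IsMap F G d) :
    hlift (lcf d F G) = phi F G := by
  funext v k
  fin_cases k
  · exact form_fcf h.homF v
  · exact form_fcf h.homG v

/-- the two factors as an indexed family. -/
noncomputable def two (d₁ d₂ : ℕ) (c₁ : Fin 2 → Fin (d₁ + 1) → ℂ) (c₂ : Fin 2 → Fin (d₂ + 1) → ℂ) :
    (i : Bool) → Fin 2 → Fin ((cond i d₁ d₂) + 1) → ℂ
  | true => c₁
  | false => c₂

def toB : Fin 2 ⊕ Fin 2 → Bool × Fin 2 := Sum.elim (fun k => (true, k)) (fun k => (false, k))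

theorem toB_inj : Function.Injective toB := by
  rintro (a | a) (b | b) h
  · simp only [toB, Sum.elim_inl, Prod.mk.injEq, true_and] at h
    rw [h]
  · simp [toB] at h
  · simp [toB] at h
  · simp only [toB, Sum.elim_inr, Prod.mk.injEq, true_and] at h
    rw [h]

theorem multiHom_toB {H : MvPolynomial (Fin 2 ⊕ Fin 2) ℂ} {p q : ℕ} (hH : Bihom H p q) :
    MultiHom (MvPolynomial.rename toB H) := by
  classical
  have key : ∀ m ∈ (MvPolynomial.rename toB H).support, ∃ m' ∈ H.support,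
      ∀ x, m (toB x) = m' x := by
    intro m hm
    rw [MvPolynomial.support_rename_of_injective toB_inj, Finset.mem_image] at hm
    obtain ⟨m', hm', rfl⟩ := hm
    exact ⟨m', hm', fun x => Finsupp.mapDomain_apply toB_inj m' x⟩
  have hw : ∀ m' ∈ H.support, m' (Sum.inl 0) + m' (Sum.inl 1) = p ∧
      m' (Sum.inr 0) + m' (Sum.inr 1) = q := by
    intro m' hm'
    have h1 := hH.1 (MvPolynomial.mem_support_iff.1 hm')
    have h2 := hH.2 (MvPolynomial.mem_support_iff.1 hm')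
    rw [Finsupp.weight_apply, Finsupp.sum_fintype _ _ (fun i => by simp)] at h1 h2
    simp only [Fintype.sum_sum_type, Sum.elim_inl, Sum.elim_inr, smul_eq_mul, mul_one, mul_zero,
      Fin.sum_univ_two, add_zero, zero_add] at h1 h2
    exact ⟨h1, h2⟩
  intro i
  rcases i with _ | _
  · refine ⟨q, fun m hm => ?_⟩
    obtain ⟨m', hm', h⟩ := key m hm
    have h0 := h (Sum.inr 0)
    have h1 := h (Sum.inr 1)
    have h2 := (hw m' hm').2
    rw [← h0, ← h1] at h2
    exact h2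
  · refine ⟨p, fun m hm => ?_⟩
    obtain ⟨m', hm', h⟩ := key m hm
    have h0 := h (Sum.inl 0)
    have h1 := h (Sum.inl 1)
    have h2 := (hw m' hm').1
    rw [← h0, ← h1] at h2
    exact h2

theorem infOrb_lcf {F G : MvPolynomial (Fin 2) ℂ} {d : ℕ} (h : IsMap F G d) {v : Fin 2 → ℂ}
    (hA : ∀ m n, m ≠ n → ¬ Par ((phi F G)^[m] v) ((phi F G)^[n] v)) : InfOrb (lcf d F G) v := by
  intro m n hmn h0
  rw [hlift_lcf h] at h0
  apply hA m n hmn
  unfold Par
  unfold det2 at h0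
  linear_combination h0

theorem one_le_deg {F G : MvPolynomial (Fin 2) ℂ} {d : ℕ} (h : IsMap F G d) {v : Fin 2 → ℂ}
    (hA : ∀ m n, m ≠ n → ¬ Par ((phi F G)^[m] v) ((phi F G)^[n] v)) : 1 ≤ d := by
  rcases Nat.eq_zero_or_pos d with h0 | h0
  · subst h0
    obtain ⟨m, n, hmn, hpar⟩ := preP_of_degree_zero h v
    exact absurd (hpar 0) (hA _ _ (by omega))
  · exact h0

/-- dynamical Mordell-Lang for curves in the product of two projective lines. -/
theorem ep_bihom (hmain : MAIN) {F₁ G₁ F₂ G₂ : MvPolynomial (Fin 2) ℂ} {d₁ d₂ : ℕ}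
    (h1 : IsMap F₁ G₁ d₁) (h2 : IsMap F₂ G₂ d₂) {H : MvPolynomial (Fin 2 ⊕ Fin 2) ℂ} {p q : ℕ}
    (hH : Bihom H p q) {a b : Fin 2 → ℂ} (ha : a ≠ 0) (hb : b ≠ 0) :
    EP (fun n => MvPolynomial.eval (Sum.elim ((phi F₁ G₁)^[n] a) ((phi F₂ G₂)^[n] b)) H = 0) := by
  rcases orbit_dichotomy h1 ha with hA | hA
  · exact ep_of_preP h1 h2 hH ha hb (Or.inl hA)
  rcases orbit_dichotomy h2 hb with hB | hB
  · exact ep_of_preP h1 h2 hH ha hb (Or.inr hB)
  have hd₁ := one_le_deg h1 hA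
  have hd₂ := one_le_deg h2 hB
  have key := hmain Bool (fun i => cond i d₁ d₂) (by intro i; rcases i with _ | _ <;> assumption)
    (two d₁ d₂ (lcf d₁ F₁ G₁) (lcf d₂ F₂ G₂)) (by
      intro i
      rcases i with _ | _
      · intro u hu
        show hlift (lcf d₂ F₂ G₂) u ≠ 0
        rw [hlift_lcf h2]
        exact phi_ne_zero h2 hu
      · intro u hu
        show hlift (lcf d₁ F₁ G₁) u ≠ 0
        rw [hlift_lcf h1]
        exact phi_ne_zero h1 hu)
    (fun i => cond i a b) (by intro i; rcases i with _ | _ <;> assumption) (by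
      intro i
      rcases i with _ | _
      · exact infOrb_lcf h2 hB
      · exact infOrb_lcf h1 hA)
    (MvPolynomial.rename toB H) (multiHom_toB hH)
  refine key.congr fun n => ?_
  rw [MvPolynomial.eval_rename]
  have hfun : ((fun x : Bool × Fin 2 => (hlift (two d₁ d₂ (lcf d₁ F₁ G₁) (lcf d₂ F₂ G₂) x.1))^[n]
      (cond x.1 a b) x.2) ∘ toB) = Sum.elim ((phi F₁ G₁)^[n] a) ((phi F₂ G₂)^[n] b) := by
    funext x
    rcases x with x | x
    · show (hlift (lcf d₁ F₁ G₁))^[n] a x = (phi F₁ G₁)^[n] a x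
      rw [hlift_lcf h1]
    · show (hlift (lcf d₂ F₂ G₂))^[n] b x = (phi F₂ G₂)^[n] b x
      rw [hlift_lcf h2]
  rw [hfun]

/-- the frozen statement from `MAIN`. -/
theorem frozen_of_main (hmain : MAIN) :
    ∀ (F₁ G₁ F₂ G₂ : MvPolynomial (Fin 2) ℂ) (d₁ d₂ : ℕ)
      (H : MvPolynomial (Fin 2 ⊕ Fin 2) ℂ) (p q : ℕ) (a b : Fin 2 → ℂ),
      F₁.IsHomogeneous d₁ → G₁.IsHomogeneous d₁ →
      (∀ v : Fin 2 → ℂ, MvPolynomial.eval v F₁ = 0 → MvPolynomial.eval v G₁ = 0 → v = 0) →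
      F₂.IsHomogeneous d₂ → G₂.IsHomogeneous d₂ →
      (∀ v : Fin 2 → ℂ, MvPolynomial.eval v F₂ = 0 → MvPolynomial.eval v G₂ = 0 → v = 0) →
      H ≠ 0 →
      MvPolynomial.IsWeightedHomogeneous
        (Sum.elim (fun _ : Fin 2 => (1 : ℕ)) (fun _ : Fin 2 => (0 : ℕ))) H p →
      MvPolynomial.IsWeightedHomogeneous
        (Sum.elim (fun _ : Fin 2 => (0 : ℕ)) (fun _ : Fin 2 => (1 : ℕ))) H q →
      a ≠ 0 → b ≠ 0 →
      ∃ N P : ℕ, 0 < P ∧ ∀ n : ℕ, N ≤ n →
        (MvPolynomial.eval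
            (Sum.elim
              ((fun v : Fin 2 → ℂ => ![MvPolynomial.eval v F₁, MvPolynomial.eval v G₁])^[n] a)
              ((fun v : Fin 2 → ℂ => ![MvPolynomial.eval v F₂, MvPolynomial.eval v G₂])^[n] b))
            H = 0 ↔
          MvPolynomial.eval
            (Sum.elim
              ((fun v : Fin 2 → ℂ => ![MvPolynomial.eval v F₁, MvPolynomial.eval v G₁])^[n + P] a)
              ((fun v : Fin 2 → ℂ => ![MvPolynomial.eval v F₂, MvPolynomial.eval v G₂])^[n + P] b))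
            H = 0) := by
  intro F₁ G₁ F₂ G₂ d₁ d₂ H p q a b hF₁ hG₁ h1 hF₂ hG₂ h2 _ hp hq ha hb
  exact ep_bihom hmain ⟨hF₁, hG₁, h1⟩ ⟨hF₂, hG₂, h2⟩ ⟨hp, hq⟩ ha hb

end Pool.Agent.SNP
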