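import Pool.Agent.SNP.Defs
import Pool.Agent.Helper59.UQ.Defs
import Pool.Agent.Helper59.DML.Transfer

/-!
# Project SNP: the blocks A (LOC), B (FROB), C (LIFT), and the main theorem
-/

set_option autoImplicit false

namespace Pool.Agent.SNP

open Pool.Agent.Helper59.DML Pool.Agent.Helper59.UQ Polynomial NumberField

/-- **Block A.** Finitely many rational maps of degrees `d j < p` with good reduction over `ℚ_p`, targets `w j` which are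
not periodic modulo `p`, or are critical points which are not periodic. There are `N` and `τ` such that no point `z` with
`f_j^N(z) = w_j` is fixed by `τ`. -/
def LOC : Prop := ∀ (p : ℕ) [Fact p.Prime] (J : Type) [Fintype J] (d : J → ℕ) (_ : ∀ j, 2 ≤ d j) (_ : ∀ j, d j < p)
  (c : (j : J) → Fin 2 → Fin (d j + 1) → ℚ_[p]) (w : J → Fin 2 → ℚ_[p])
  (_ : ∀ j, GoodRed (cmap (algebraMap ℚ_[p] (PadicAlgCl p)) (c j))) (_ : ∀ j, ‖w j‖ = 1)
  (_ : ∀ j, NPer (c j) (w j) ∨ CPer (c j) (w j)),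
  ∃ (N : ℕ) (τ : PadicAlgCl p ≃ₐ[ℚ_[p]] PadicAlgCl p), ∀ (j : J) (z : Fin 2 → PadicAlgCl p), z ≠ 0 →
    det2 ((hlift (cmap (algebraMap ℚ_[p] (PadicAlgCl p)) (c j)))^[N] z) (vmap (algebraMap ℚ_[p] (PadicAlgCl p)) (w j)) = 0 →
    det2 (fun k => τ (z k)) z ≠ 0

/-- **Block B.** Weak form of Chebotarev's theorem (Frobenius). -/
def FROB : Prop := ∀ (K : Type) [Field K] [NumberField K] (Ω : Type) [Field Ω] [CharZero Ω] [IsAlgClosed Ω]
  (j : K →+* Ω) (τ : Ω ≃+* Ω) (_ : ∀ x : K, τ (j x) = j x) (g : (𝓞 K)[X])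
  (_ : ∀ x : Ω, (g.map (j.comp (algebraMap (𝓞 K) K))).eval x = 0 → τ x ≠ x) (B : ℕ),
  ∃ p : ℕ, p.Prime ∧ B < p ∧ ∃ ψ : 𝓞 K →+* ZMod p, ∀ x : ZMod p, (g.map ψ).eval x ≠ 0

/-- **Block C.** The ring generated by finitely many elements of `ℚ_p` is approximated by homomorphisms `s` to number
fields in `ℚ_p`, and the reductions of `s` modulo large primes of degree one lift to embeddings into `ℤ_p'`. -/
def LIFT : Prop := ∀ (p : ℕ) [Fact p.Prime] (F : Finset ℚ_[p]) (ε : ℝ) (_ : 0 < ε),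
  ∃ (K : Type) (_ : Field K) (_ : NumberField K) (jp : K →+* ℚ_[p])
    (s : Algebra.adjoin ℤ (F : Set ℚ_[p]) →+* K),
    (∀ x : Algebra.adjoin ℤ (F : Set ℚ_[p]), (x : ℚ_[p]) ∈ F → ‖jp (s x) - x‖ < ε) ∧
    ∃ B : ℕ, ∀ (q : ℕ) [Fact q.Prime], B < q → ∀ ψ : 𝓞 K →+* ZMod q,
      ∃ (f : Algebra.adjoin ℤ (F : Set ℚ_[p]) →+* ℤ_[q]), Function.Injective f ∧
        ∀ (x : Algebra.adjoin ℤ (F : Set ℚ_[p])) (n : ℕ) (y : 𝓞 K), (y : K) = n * s x →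
          ψ y = n * PadicInt.toZMod (f x)

/-- **Main theorem**: full dynamical Mordell-Lang for split maps of `(P^1)^ι` over `ℂ` (infinite orbits). -/
def MAIN : Prop := ∀ (ι : Type) [Fintype ι] (d : ι → ℕ) (_ : ∀ i, 1 ≤ d i)
  (c : (i : ι) → Fin 2 → Fin (d i + 1) → ℂ) (_ : ∀ i, ∀ u : Fin 2 → ℂ, u ≠ 0 → hlift (c i) u ≠ 0)
  (v : ι → Fin 2 → ℂ) (_ : ∀ i, v i ≠ 0) (_ : ∀ i, InfOrb (c i) (v i)) (H : MvPolynomial (ι × Fin 2) ℂ)
  (_ : MultiHom H),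
  EP (fun n => MvPolynomial.eval (fun x => (hlift (c x.1))^[n] (v x.1) x.2) H = 0)

end Pool.Agent.SNP
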