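import Pool.Agent.SNP.Model
import Pool.Agent.SNP.Iface
import Pool.Agent.Helper59.UQ.ApproxFG

/-!
# SNP, block C: the theorem `lift : LIFT`
-/

set_option autoImplicit false

open Polynomial NumberField

namespace Pool.Agent.SNP

open Pool.Agent.Helper59.DML Pool.Agent.Helper59.UQ

private theorem exists_int_mul {K : Type} [Field K] [NumberField K] (x : K) :
    ∃ n : ℕ, n ≠ 0 ∧ ∃ y : 𝓞 K, (y : K) = n * x := by
  have h1 : IsAlgebraic ℤ x := (IsFractionRing.isAlgebraic_iff ℤ ℚ K).2 (Algebra.IsAlgebraic.isAlgebraic x)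
  obtain ⟨m, hm0, hm⟩ := h1.exists_integral_multiple
  refine ⟨m.natAbs, Int.natAbs_ne_zero.2 hm0, ?_⟩
  have h2 : IsIntegral ℤ ((m.natAbs : K) * x) := by
    rcases Int.natAbs_eq m with h | h
    · have h3 : (m.natAbs : K) * x = m • x := by
        rw [zsmul_eq_mul]
        congr 1
        rw [← Int.cast_natCast, ← h]
      rw [h3]
      exact hm
    · have h3 : (m.natAbs : K) * x = -(m • x) := by
        rw [zsmul_eq_mul, ← neg_mul]
        congr 1
        rw [← Int.cast_natCast, ← Int.cast_neg]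
        congr 1
        omega
      rw [h3]
      exact hm.neg
  exact ⟨⟨_, h2⟩, rfl⟩

/-- reduction of a homomorphism from a finitely generated ring to a number field. -/
theorem exists_rho {A : Type} [CommRing A] {K : Type} [Field K] [NumberField K] (s : A →+* K)
    (G : Finset A) (hG : Algebra.adjoin ℤ (G : Set A) = ⊤) :
    ∃ B : ℕ, ∀ (q : ℕ) [Fact q.Prime], B < q → ∀ ψ : 𝓞 K →+* ZMod q, ∃ ρ : A →+* ZMod q,
      ∀ (x : A) (n : ℕ) (y : 𝓞 K), (y : K) = n * s x → ψ y = n * ρ x := by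
  classical
  choose ng hng yg hyg using fun g : A => exists_int_mul (s g)
  refine ⟨∑ g ∈ G, ng g, fun q hq hBq ψ => ?_⟩
  have hqp : q.Prime := hq.out
  have hall : ∀ a : A, ∃ n : ℕ, ¬ q ∣ n ∧ ∃ y : 𝓞 K, (y : K) = n * s a := by
    intro a
    have ha : a ∈ Algebra.adjoin ℤ (G : Set A) := by rw [hG]; exact Algebra.mem_top
    induction ha using Algebra.adjoin_induction with
    | mem x hx =>
      refine ⟨ng x, fun hd => ?_, yg x, hyg x⟩
      have h1 := Nat.le_of_dvd (Nat.pos_of_ne_zero (hng x)) hd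
      have h2 : ng x ≤ ∑ g ∈ G, ng g := Finset.single_le_sum (f := ng) (fun _ _ => Nat.zero_le _) hx
      omega
    | algebraMap r =>
      refine ⟨1, hqp.one_lt.ne' ∘ Nat.dvd_one.1, (r : 𝓞 K), ?_⟩
      simp
    | add x y _ _ hx hy =>
      obtain ⟨n, hn, z, hz⟩ := hx
      obtain ⟨n', hn', z', hz'⟩ := hy
      refine ⟨n * n', fun hd => ?_, n' * z + n * z', ?_⟩
      · rcases hqp.dvd_mul.1 hd with h | h
        · exact hn h
        · exact hn' h
      · change algebraMap (𝓞 K) K z = _ at hz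
        change algebraMap (𝓞 K) K z' = _ at hz'
        change algebraMap (𝓞 K) K _ = _
        rw [map_add, map_mul, map_mul, map_natCast, map_natCast, hz, hz', map_add]
        push_cast
        ring
    | mul x y _ _ hx hy =>
      obtain ⟨n, hn, z, hz⟩ := hx
      obtain ⟨n', hn', z', hz'⟩ := hy
      refine ⟨n * n', fun hd => ?_, z * z', ?_⟩
      · rcases hqp.dvd_mul.1 hd with h | h
        · exact hn h
        · exact hn' h
      · change algebraMap (𝓞 K) K z = _ at hz
        change algebraMap (𝓞 K) K z' = _ at hz'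
        change algebraMap (𝓞 K) K _ = _
        rw [map_mul, hz, hz', map_mul]
        push_cast
        ring
  choose nn hnn yy hyy using hall
  have hnz : ∀ a, (nn a : ZMod q) ≠ 0 := fun a h => hnn a ((ZMod.natCast_eq_zero_iff _ _).1 h)
  obtain ⟨r, hr⟩ : ∃ r : A → ZMod q, ∀ a, r a = ψ (yy a) * (nn a : ZMod q)⁻¹ := ⟨_, fun _ => rfl⟩
  have hr1 : ∀ a, ψ (yy a) = nn a * r a := by
    intro a
    rw [hr, mul_comm (ψ (yy a)), mul_inv_cancel_left₀ (hnz a)]
  have hyy' : ∀ a, algebraMap (𝓞 K) K (yy a) = nn a * s a := hyy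
  have key : ∀ (x : A) (n : ℕ) (y : 𝓞 K), (y : K) = n * s x → ψ y = n * r x := by
    intro x n y h
    have h1 : (nn x : 𝓞 K) * y = n * yy x := by
      apply RingOfIntegers.ext
      change algebraMap (𝓞 K) K y = _ at h
      change algebraMap (𝓞 K) K _ = algebraMap (𝓞 K) K _
      rw [map_mul, map_mul, map_natCast, map_natCast, h, hyy' x]
      ring
    have h2 := congrArg ψ h1
    rw [map_mul, map_mul, map_natCast, map_natCast, hr1] at h2
    apply mul_left_cancel₀ (hnz x)
    rw [h2]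
    ring
  refine ⟨{ toFun := r
            map_one' := ?_
            map_mul' := fun x y => ?_
            map_zero' := ?_
            map_add' := fun x y => ?_ }, key⟩
  · have := key 1 1 1 (by simp)
    simpa using this.symm
  · have h1 := key (x * y) (nn x * nn y) (yy x * yy y) (by
      change algebraMap (𝓞 K) K _ = _
      rw [map_mul, hyy', hyy', map_mul]
      push_cast
      ring)
    rw [map_mul, hr1, hr1] at h1
    apply mul_left_cancel₀ (mul_ne_zero (hnz x) (hnz y))
    push_cast at h1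
    rw [← h1]
    ring
  · have := key 0 1 0 (by simp)
    simpa using this.symm
  · have h1 := key (x + y) (nn x * nn y) (nn y * yy x + nn x * yy y) (by
      change algebraMap (𝓞 K) K _ = _
      rw [map_add, map_mul, map_mul, map_natCast, map_natCast, hyy', hyy', map_add]
      push_cast
      ring)
    rw [map_add, map_mul, map_mul, map_natCast, map_natCast, hr1, hr1] at h1
    apply mul_left_cancel₀ (mul_ne_zero (hnz x) (hnz y))
    push_cast at h1
    rw [← h1]
    ring

theorem lift : LIFT := by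
  intro p hp F ε hε
  obtain ⟨A, hfg, hFA, hA⟩ := model_lift F
  obtain ⟨G, hG⟩ := hfg
  obtain ⟨R, hR⟩ : ∃ R : Subalgebra ℚ ℚ_[p], R = Algebra.adjoin ℚ (G : Set ℚ_[p]) := ⟨_, rfl⟩
  have happ : Approx p R := by rw [hR]; exact approx_fg G
  obtain ⟨φ, halg, hφ⟩ := happ F ε hε
  have hfin : Algebra.FiniteType ℚ R := by
    rw [hR]
    exact Subalgebra.fg_iff_finiteType _ |>.1 ⟨G, rfl⟩
  obtain ⟨K, hK, hNF, s₀, j, hj⟩ := exists_nf φ halg
  have hAR : ∀ x ∈ A, x ∈ R := by
    intro x hx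
    rw [← hG] at hx
    induction hx using Algebra.adjoin_induction with
    | mem x hx => rw [hR]; exact Algebra.subset_adjoin hx
    | algebraMap r =>
      have h1 : (algebraMap ℤ ℚ_[p] r) = algebraMap ℚ ℚ_[p] (r : ℚ) := by simp
      rw [h1]
      exact R.algebraMap_mem _
    | add x y _ _ hx hy => exact R.add_mem hx hy
    | mul x y _ _ hx hy => exact R.mul_mem hx hy
  obtain ⟨ιA, hιA⟩ : ∃ ιA : A →+* R, ∀ a, ((ιA a : R) : ℚ_[p]) = a :=
    ⟨(A.val : A →+* ℚ_[p]).codRestrict R fun a => hAR a a.2, fun _ => rfl⟩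
  have hle : Algebra.adjoin ℤ (F : Set ℚ_[p]) ≤ A := Algebra.adjoin_le hFA
  obtain ⟨ιF, hιF⟩ : ∃ ιF : Algebra.adjoin ℤ (F : Set ℚ_[p]) →+* A, ∀ a, ((ιF a : A) : ℚ_[p]) = a :=
    ⟨(Subalgebra.inclusion hle : Algebra.adjoin ℤ (F : Set ℚ_[p]) →+* A), fun _ => rfl⟩
  have hιFi : Function.Injective ιF := by
    intro x y h
    apply Subtype.val_injective
    rw [← hιF, ← hιF, h]
  -- generators of `A`
  obtain ⟨G', hG'⟩ : ∃ G' : Finset A, Algebra.adjoin ℤ (G' : Set A) = ⊤ := by
    have h1 : (⊤ : Subalgebra ℤ A).FG := (Subalgebra.fg_top A).2 ⟨G, hG⟩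
    exact h1
  obtain ⟨B, hB⟩ := exists_rho (s₀.comp ιA) G' hG'
  refine ⟨K, hK, hNF, j, (s₀.comp ιA).comp ιF, ?_, B, ?_⟩
  · intro x hx
    have h1 : ((ιA (ιF x) : R) : ℚ_[p]) = x := by rw [hιA, hιF]
    have h2 := hφ (ιA (ιF x)) (by rw [h1]; exact hx)
    rw [h1, ← hj] at h2
    exact h2
  · intro q hq hBq ψ
    obtain ⟨ρ, hρ⟩ := hB q hBq ψ
    obtain ⟨f, hf, hf2⟩ := hA q ρ
    refine ⟨f.comp ιF, hf.comp hιFi, fun x n y h => ?_⟩
    rw [RingHom.comp_apply, hf2]
    exact hρ (ιF x) n y h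

end Pool.Agent.SNP
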