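import Pool.Agent.SNP.A.Asm
import Pool.Agent.SNP.B.Main
import Pool.Agent.SNP.D.Main
import Pool.Agent.SNP.D1
import Pool.Agent.SNP.E.All
import Pool.Agent.SNP.Lift
import Pool.Agent.SNP.T.Tau

/-!
# Project SNP: the main theorem (full dynamical Mordell-Lang for split maps of `(P^1)^N` over `ℂ`)
-/

set_option autoImplicit false

namespace Pool.Agent.SNP

theorem loc : LOC := loc_of_tau fun p _ M k h1 h2 h3 => T.exists_tau p M k h1 h3 h2

theorem main : MAIN := main_of loc B.frob_holds lift

theorem all : ALL := all_of_main main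

end Pool.Agent.SNP
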