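import Pool.Agent.Helper59.DML.Forms

/-!
# Project SNP (MP_e566f8_ag): simultaneous non-periodicity of critical points; definitions

`hlift c : (Fin 2 → K) → (Fin 2 → K)` is the pair of binary forms of degree `d` with coefficients `c k j`, `det2 v w = v 0 * w 1 - v 1 * w 0`,
`jac c v` the reduced Jacobian (`DML/Forms.lean`).
-/

set_option autoImplicit false

namespace Pool.Agent.SNP

open Pool.Agent.Helper59.DML

/-- coefficients mapped by a ring homomorphism. -/
def cmap {R S : Type*} [CommRing R] [CommRing S] (f : R →+* S) {d : ℕ} (c : Fin 2 → Fin (d + 1) → R) :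
    Fin 2 → Fin (d + 1) → S := fun k j => f (c k j)

/-- vectors mapped by a ring homomorphism. -/
def vmap {R S : Type*} [CommRing R] [CommRing S] (f : R →+* S) (v : Fin 2 → R) : Fin 2 → S := fun k => f (v k)

/-- `[hlift c]` maps primitive vectors to primitive vectors (good reduction), and the coefficients are integral. -/
def GoodRed {K : Type*} [NormedField K] {d : ℕ} (c : Fin 2 → Fin (d + 1) → K) : Prop :=
  (∀ k j, ‖c k j‖ ≤ 1) ∧ ∀ u : Fin 2 → K, ‖u‖ = 1 → ‖hlift c u‖ = 1

/-- the point `w` is not periodic modulo the maximal ideal. -/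
def NPer {K : Type*} [NormedField K] {d : ℕ} (c : Fin 2 → Fin (d + 1) → K) (w : Fin 2 → K) : Prop :=
  ∀ m, 1 ≤ m → ‖det2 ((hlift c)^[m] w) w‖ = 1

/-- `w` is a critical point, and, if it is periodic modulo the maximal ideal with minimal period `m`, then it is not a
periodic point with period `m`. -/
def CPer {K : Type*} [NormedField K] {d : ℕ} (c : Fin 2 → Fin (d + 1) → K) (w : Fin 2 → K) : Prop :=
  jac c w = 0 ∧ ∀ m, 1 ≤ m → ‖det2 ((hlift c)^[m] w) w‖ < 1 →
    (∀ m', 1 ≤ m' → m' < m → ‖det2 ((hlift c)^[m'] w) w‖ = 1) → det2 ((hlift c)^[m] w) w ≠ 0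

theorem vmap_hlift_iter {R S : Type*} [CommRing R] [CommRing S] (f : R →+* S) {d : ℕ} (c : Fin 2 → Fin (d + 1) → R)
    (v : Fin 2 → R) (n : ℕ) : vmap f ((hlift c)^[n] v) = (hlift (cmap f c))^[n] (vmap f v) :=
  map_hlift_iter f c v n

theorem map_det2 {R S : Type*} [CommRing R] [CommRing S] (f : R →+* S) (v w : Fin 2 → R) :
    f (det2 v w) = det2 (vmap f v) (vmap f w) := by
  simp [det2, vmap]

end Pool.Agent.SNP
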