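import Pool.Agent.Helper59.DML.Embed

/-!
# SNP, block C, part 1: smooth models of finitely generated fields of characteristic zero

Every finite set of elements of a field of characteristic zero lies in a finitely generated subring `A` with the
property: every homomorphism `A → ZMod q` lifts to an INJECTIVE homomorphism `A → ℤ_q`.

Proof. `A = ℤ[t][1/D][θ]` with a transcendence basis `t` of the field generated by the elements, and `θ` a root of a
polynomial over `ℤ[t]` whose derivative at `θ` is invertible in `A`. The values of `t` are lifted to algebraically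
independent elements of `ℤ_q`, the value of `θ` by Hensel's lemma.
-/

set_option autoImplicit false

open Polynomial

namespace Pool.Agent.SNP

open Pool.Agent.Helper59.DML

private theorem toZMod_eq_zero_iff {p : ℕ} [Fact p.Prime] (a : ℤ_[p]) : PadicInt.toZMod a = 0 ↔ ‖a‖ < 1 := by
  rw [← RingHom.mem_ker, PadicInt.ker_toZMod]
  exact PadicInt.mem_nonunits

private theorem toZMod_eq_of_close {p : ℕ} [Fact p.Prime] {a b : ℤ_[p]} (h : ‖a - b‖ < 1) :
    PadicInt.toZMod a = PadicInt.toZMod b := by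
  rw [← sub_eq_zero, ← map_sub]
  exact (toZMod_eq_zero_iff _).2 h

/-- Hensel's lemma for a polynomial with coefficients in `ℤ[t]`, at a point `τ` of `ℤ_p^κ`; the reduction is given by
a homomorphism to `ZMod p`. -/
private theorem hensel_at {κ : Type} {p : ℕ} [Fact p.Prime] (ετ : MvPolynomial κ ℤ →+* ℤ_[p])
    (σ : MvPolynomial κ ℤ →+* ZMod p) (hσ : ∀ P, PadicInt.toZMod (ετ P) = σ P)
    (m₁ U V : (MvPolynomial κ ℤ)[X]) (D : MvPolynomial κ ℤ)
    (hD : U * m₁ + V * derivative m₁ = C D) (hDσ : σ D ≠ 0) (n : ZMod p) (hn : m₁.eval₂ σ n = 0) :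
    ∃ b : ℤ_[p], m₁.eval₂ ετ b = 0 ∧ PadicInt.toZMod b = n := by
  have hcomp : (PadicInt.toZMod : ℤ_[p] →+* ZMod p).comp ετ = σ := RingHom.ext hσ
  obtain ⟨n', hn'⟩ : ∃ n' : ℤ_[p], PadicInt.toZMod n' = n := by
    refine ⟨((n.val : ℕ) : ℤ_[p]), ?_⟩
    rw [map_natCast, ZMod.natCast_zmod_val]
  have key : ∀ P : (MvPolynomial κ ℤ)[X], PadicInt.toZMod ((P.map ετ).eval n') = P.eval₂ σ n := by
    intro P
    rw [Polynomial.eval_map, Polynomial.hom_eval₂, hcomp, hn']
  obtain ⟨G, hG⟩ : ∃ G, G = m₁.map ετ := ⟨_, rfl⟩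
  have hG0 : ‖G.eval n'‖ < 1 := by
    rw [← toZMod_eq_zero_iff, hG, key]
    exact hn
  have hGd : PadicInt.toZMod ((derivative G).eval n') ≠ 0 := by
    intro h0
    have h2 := congrArg (fun Q : (MvPolynomial κ ℤ)[X] => Q.eval₂ σ n) hD
    simp only [Polynomial.eval₂_add, Polynomial.eval₂_mul, Polynomial.eval₂_C] at h2
    rw [hG, Polynomial.derivative_map, key] at h0
    rw [hn, h0, mul_zero, mul_zero, add_zero] at h2
    exact hDσ h2.symm
  have hGd1 : ‖(derivative G).eval n'‖ = 1 := by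
    have h5 : ¬ ‖(derivative G).eval n'‖ < 1 := fun h => hGd ((toZMod_eq_zero_iff _).2 h)
    exact le_antisymm (PadicInt.norm_le_one _) (not_lt.1 h5)
  obtain ⟨z, hz, hz2, -⟩ := hensels_lemma (p := p) (R := ℤ_[p]) (F := G) (a := n') (by
    simp only [Polynomial.coe_aeval_eq_eval]
    rw [hGd1]; simpa using hG0)
  simp only [Polynomial.coe_aeval_eq_eval] at hz hz2
  refine ⟨z, ?_, ?_⟩
  · rw [← Polynomial.eval_map, ← hG]; exact hz
  · rw [← hn']
    exact toZMod_eq_of_close (hz2.trans_le hGd1.le)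

private theorem model_core {κ : Type} [Finite κ] {L : Type} [Field L]
    [Algebra (FractionRing (MvPolynomial κ ℤ)) L]
    [FiniteDimensional (FractionRing (MvPolynomial κ ℤ)) L] (F : Finset L) :
    ∃ A : Subalgebra ℤ L, A.FG ∧ (F : Set L) ⊆ A ∧ ∀ (q : ℕ) [Fact q.Prime] (ρ : A →+* ZMod q),
      ∃ f : A →+* ℤ_[q], Function.Injective f ∧ ∀ a, PadicInt.toZMod (f a) = ρ a := by
  classical
  have : CharZero (MvPolynomial κ ℤ) := charZero_of_injective_algebraMap (R := ℤ) (A := MvPolynomial κ ℤ)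
    (by rw [MvPolynomial.algebraMap_eq]; exact MvPolynomial.C_injective κ ℤ)
  have : CharZero (FractionRing (MvPolynomial κ ℤ)) :=
    charZero_of_injective_algebraMap (R := MvPolynomial κ ℤ) (A := FractionRing (MvPolynomial κ ℤ))
      (IsFractionRing.injective _ _)
  let R := MvPolynomial κ ℤ
  let K := FractionRing R
  let pb : PowerBasis K L := Field.powerBasisOfFiniteOfSeparable K L
  obtain ⟨θ, hθ⟩ : ∃ θ, θ = pb.gen := ⟨_, rfl⟩
  have hint : IsIntegral K θ := Algebra.IsIntegral.isIntegral θ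
  obtain ⟨m, hm⟩ : ∃ m, m = minpoly K θ := ⟨_, rfl⟩
  have hsep : m.Separable := by rw [hm]; exact (minpoly.irreducible hint).separable
  obtain ⟨u, v, huv⟩ := hsep
  obtain ⟨bm, hbm, hbm1⟩ := IsLocalization.integerNormalization_spec (nonZeroDivisors R) m
  obtain ⟨bu, hbu, hbu1⟩ := IsLocalization.integerNormalization_spec (nonZeroDivisors R) u
  obtain ⟨bv, hbv, hbv1⟩ := IsLocalization.integerNormalization_spec (nonZeroDivisors R) v
  obtain ⟨m₁, hm₁⟩ : ∃ m₁, m₁ = IsLocalization.integerNormalization (nonZeroDivisors R) m := ⟨_, rfl⟩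
  obtain ⟨u₁, hu₁⟩ : ∃ u₁, u₁ = IsLocalization.integerNormalization (nonZeroDivisors R) u := ⟨_, rfl⟩
  obtain ⟨v₁, hv₁⟩ : ∃ v₁, v₁ = IsLocalization.integerNormalization (nonZeroDivisors R) v := ⟨_, rfl⟩
  rw [← hm₁] at hbm1
  rw [← hu₁] at hbu1
  rw [← hv₁] at hbv1
  have hmapinj : Function.Injective (Polynomial.map (algebraMap R K)) :=
    Polynomial.map_injective _ (IsFractionRing.injective R K)
  have hm₁' : m₁.map (algebraMap R K) = C (algebraMap R K bm) * m := by
    rw [hbm1, Algebra.smul_def]; rfl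
  have hu₁' : u₁.map (algebraMap R K) = C (algebraMap R K bu) * u := by
    rw [hbu1, Algebra.smul_def]; rfl
  have hv₁' : v₁.map (algebraMap R K) = C (algebraMap R K bv) * v := by
    rw [hbv1, Algebra.smul_def]; rfl
  obtain ⟨D₁, hD₁⟩ : ∃ D₁ : R, D₁ = bu * bv * bm := ⟨_, rfl⟩
  have hD₁0 : D₁ ≠ 0 := by
    rw [hD₁]
    exact mul_ne_zero (mul_ne_zero (nonZeroDivisors.ne_zero hbu) (nonZeroDivisors.ne_zero hbv))
      (nonZeroDivisors.ne_zero hbm)
  have hrel : (C bv * u₁) * m₁ + (C bu * v₁) * derivative m₁ = C D₁ := by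
    apply hmapinj
    rw [Polynomial.map_add, Polynomial.map_mul, Polynomial.map_mul, Polynomial.map_mul,
      Polynomial.map_mul, ← Polynomial.derivative_map, Polynomial.map_C, Polynomial.map_C,
      Polynomial.map_C, hm₁', hu₁', hv₁', derivative_mul, derivative_C, zero_mul, zero_add, hD₁]
    have h1 : C (algebraMap R K (bu * bv * bm))
        = C (algebraMap R K bu) * C (algebraMap R K bv) * C (algebraMap R K bm) := by
      simp only [map_mul]
    rw [h1, ← mul_one (C (algebraMap R K bu) * C (algebraMap R K bv) * C (algebraMap R K bm)), ← huv]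
    ring
  -- the map `ℤ[t] → L`
  obtain ⟨ιR, hιR⟩ : ∃ ιR : R →+* L, ιR = (algebraMap K L).comp (algebraMap R K) := ⟨_, rfl⟩
  have hιRi : Function.Injective ιR := by
    rw [hιR]
    exact (algebraMap K L).injective.comp (IsFractionRing.injective R K)
  -- denominators of the elements of `F`
  have hden : ∀ y : L, ∃ b : R, b ≠ 0 ∧ ∃ P : R[X], ιR b * y = P.eval₂ ιR θ := by
    intro y
    obtain ⟨P, hP⟩ : ∃ P : K[X], y = aeval θ P := by
      rw [hθ]
      exact pb.exists_eq_aeval' y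
    obtain ⟨b, hb, hb1⟩ := IsLocalization.integerNormalization_spec (nonZeroDivisors R) P
    refine ⟨b, nonZeroDivisors.ne_zero hb, IsLocalization.integerNormalization (nonZeroDivisors R) P, ?_⟩
    rw [hιR, ← Polynomial.eval₂_map, hb1, Algebra.smul_def, hP]
    have h1 : (algebraMap R K[X]) b = C (algebraMap R K b) := rfl
    rw [h1, Polynomial.eval₂_mul, Polynomial.eval₂_C]
    rfl
  choose bd hbd Pd hPd using hden
  obtain ⟨D, hD⟩ : ∃ D : R, D = D₁ * ∏ y ∈ F, bd y := ⟨_, rfl⟩
  have hD0 : D ≠ 0 := by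
    rw [hD]
    exact mul_ne_zero hD₁0 (Finset.prod_ne_zero_iff.2 fun y _ => hbd y)
  have hιD : ιR D ≠ 0 := fun h => hD0 (hιRi (by rw [h, map_zero]))
  obtain ⟨S, hS⟩ : ∃ S : Set L, S = Set.range (fun i => ιR (MvPolynomial.X i)) ∪ {(ιR D)⁻¹, θ} := ⟨_, rfl⟩
  have hSf : S.Finite := by
    rw [hS]
    exact (Set.finite_range _).union (Set.toFinite _)
  obtain ⟨A, hA⟩ : ∃ A : Subalgebra ℤ L, A = Algebra.adjoin ℤ S := ⟨_, rfl⟩
  have hSA : ∀ x ∈ S, x ∈ A := fun x hx => by rw [hA]; exact Algebra.subset_adjoin hx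
  have hXA : ∀ i, ιR (MvPolynomial.X i) ∈ A := fun i => hSA _ (by rw [hS]; exact Or.inl ⟨i, rfl⟩)
  have hδA : (ιR D)⁻¹ ∈ A := hSA _ (by rw [hS]; exact Or.inr (Or.inl rfl))
  have hθA : θ ∈ A := hSA _ (by rw [hS]; exact Or.inr (Or.inr rfl))
  have hRA : ∀ P : R, ιR P ∈ A := by
    intro P
    induction P using MvPolynomial.induction_on with
    | C a =>
      have h1 : ιR (MvPolynomial.C a) = (a : L) := by
        have : (MvPolynomial.C a : R) = ((a : ℤ) : R) := by simp
        rw [this, map_intCast]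
      rw [h1]
      exact A.algebraMap_mem a
    | add P Q hP hQ => rw [map_add]; exact A.add_mem hP hQ
    | mul_X P i hP => rw [map_mul]; exact A.mul_mem hP (hXA i)
  have hPA : ∀ P : R[X], P.eval₂ ιR θ ∈ A := by
    intro P
    rw [Polynomial.eval₂_eq_sum_range]
    exact A.sum_mem fun i _ => A.mul_mem (hRA _) (A.pow_mem hθA i)
  refine ⟨A, ?_, ?_, ?_⟩
  · rw [hA]
    exact ⟨hSf.toFinset, by rw [hSf.coe_toFinset]⟩
  · intro y hy
    have hyF : y ∈ F := hy
    have h1 : y = (ιR D)⁻¹ * (ιR (D₁ * ∏ z ∈ F.erase y, bd z) * (Pd y).eval₂ ιR θ) := by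
      rw [← hPd y]
      have h2 : ιR (D₁ * ∏ z ∈ F.erase y, bd z) * (ιR (bd y) * y) = ιR D * y := by
        rw [hD, ← Finset.mul_prod_erase F bd hyF]
        simp only [map_mul]
        ring
      rw [h2, ← mul_assoc, inv_mul_cancel₀ hιD, one_mul]
    rw [h1]
    exact A.mul_mem hδA (A.mul_mem (hRA _) (hPA _))
  · intro q hq ρ
    -- the map `ℤ[t] → A → ZMod q`
    obtain ⟨ιA, hιA⟩ : ∃ ιA : R →+* A, ∀ P, ((ιA P : A) : L) = ιR P := ⟨ιR.codRestrict A hRA, fun _ => rfl⟩
    obtain ⟨σ, hσ⟩ : ∃ σ : R →+* ZMod q, σ = ρ.comp ιA := ⟨_, rfl⟩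
    obtain ⟨τ, hind, hclose⟩ := exists_algInd (p := q) (κ := κ)
      (fun j => (((σ (MvPolynomial.X j)).val : ℕ) : ℤ_[q]))
    obtain ⟨ετ, hετ⟩ : ∃ ετ : R →+* ℤ_[q], ετ = MvPolynomial.eval₂Hom (Int.castRingHom ℤ_[q]) τ := ⟨_, rfl⟩
    have hred : ∀ P, PadicInt.toZMod (ετ P) = σ P := by
      intro P
      have h1 : (PadicInt.toZMod : ℤ_[q] →+* ZMod q).comp ετ = σ := by
        apply MvPolynomial.ringHom_ext
        · intro a
          rw [hετ]
          simp
        · intro j
          rw [hετ, RingHom.comp_apply, MvPolynomial.eval₂Hom_X', toZMod_eq_of_close (hclose j), map_natCast,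
            ZMod.natCast_zmod_val]
      exact congrArg (fun g : R →+* ZMod q => g P) h1
    have hθ0 : m₁.eval₂ ιA ⟨θ, hθA⟩ = 0 := by
      apply Subtype.val_injective
      have h1 : ((m₁.eval₂ ιA ⟨θ, hθA⟩ : A) : L) = m₁.eval₂ ιR θ := by
        have h2 := Polynomial.hom_eval₂ m₁ ιA (A.val : A →+* L) ⟨θ, hθA⟩
        have h3 : (A.val : A →+* L).comp ιA = ιR := RingHom.ext hιA
        rw [h3] at h2
        exact h2
      rw [h1, hιR, ← Polynomial.eval₂_map, hm₁', Polynomial.eval₂_mul]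
      have h4 : m.eval₂ (algebraMap K L) θ = 0 := by
        rw [hm]; exact minpoly.aeval K θ
      rw [h4, mul_zero]
      rfl
    have hn : m₁.eval₂ σ (ρ ⟨θ, hθA⟩) = 0 := by
      rw [hσ, ← Polynomial.hom_eval₂, hθ0, map_zero]
    have hσD : σ D ≠ 0 := by
      intro h0
      have h1 : ιA D * ⟨(ιR D)⁻¹, hδA⟩ = 1 := by
        apply Subtype.val_injective
        show ((ιA D : A) : L) * (ιR D)⁻¹ = 1
        rw [hιA, mul_inv_cancel₀ hιD]
      have h2 := congrArg ρ h1
      rw [map_mul, map_one] at h2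
      rw [hσ, RingHom.comp_apply] at h0
      rw [h0, zero_mul] at h2
      exact zero_ne_one h2
    have hσD₁ : σ D₁ ≠ 0 := by
      intro h0
      apply hσD
      rw [hD, map_mul, h0, zero_mul]
    obtain ⟨b, hb, hb2⟩ := hensel_at ετ σ hred m₁ (C bv * u₁) (C bu * v₁) D₁ hrel hσD₁ _ hn
    -- the embedding of the field
    obtain ⟨ε', hε'⟩ : ∃ ε' : R →+* ℚ_[q], ε' = (PadicInt.Coe.ringHom).comp ετ := ⟨_, rfl⟩
    have hε'inj : Function.Injective ε' := by
      have h4 : AlgebraicIndependent ℤ (fun j => ((τ j : ℤ_[q]) : ℚ_[q])) :=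
        hind.restrictScalars (RingHom.injective_int (algebraMap ℤ ℚ))
      have h5 : (ε' : R →+* ℚ_[q]) = (MvPolynomial.aeval (fun j => ((τ j : ℤ_[q]) : ℚ_[q])) :
          MvPolynomial κ ℤ →ₐ[ℤ] ℚ_[q]).toRingHom := by
        apply MvPolynomial.ringHom_ext
        · intro a; simp [hε', hετ]
        · intro j
          simp [hε', hετ]
      rw [h5]
      exact h4
    let φ : K →+* ℚ_[q] := IsFractionRing.lift hε'inj
    have hφR : ∀ x : R, φ (algebraMap R K x) = ε' x := fun x => IsFractionRing.lift_algebraMap hε'inj x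
    have hroot : m.eval₂ φ (b : ℚ_[q]) = 0 := by
      have h6 : (m₁.map (algebraMap R K)).eval₂ φ (b : ℚ_[q]) = 0 := by
        rw [Polynomial.eval₂_map]
        have h7 : φ.comp (algebraMap R K) = (PadicInt.Coe.ringHom).comp ετ := by
          rw [← hε']; exact RingHom.ext hφR
        rw [h7]
        have h8 := Polynomial.hom_eval₂ m₁ ετ (PadicInt.Coe.ringHom (p := q)) b
        rw [hb, map_zero] at h8
        exact h8.symm
      rw [hm₁', Polynomial.eval₂_mul, Polynomial.eval₂_C, hφR] at h6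
      rcases mul_eq_zero.1 h6 with h9 | h9
      · exfalso
        exact (nonZeroDivisors.ne_zero hbm) (hε'inj (by rw [h9, map_zero]))
      · exact h9
    let _ : Algebra K ℚ_[q] := φ.toAlgebra
    obtain ⟨g, hg1, hg2⟩ : ∃ g : L →+* ℚ_[q], g θ = b ∧ ∀ x : K, g (algebraMap K L x) = φ x := by
      have h1 : aeval (b : ℚ_[q]) (minpoly K pb.gen) = 0 := by
        rw [← hθ, ← hm]; exact hroot
      refine ⟨(pb.lift (b : ℚ_[q]) h1 : L →ₐ[K] ℚ_[q]).toRingHom, ?_, fun x => ?_⟩
      · rw [hθ]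
        exact pb.lift_gen _ h1
      · exact (pb.lift (b : ℚ_[q]) h1 : L →ₐ[K] ℚ_[q]).commutes x
    have hgR : ∀ P : R, g (ιR P) = ((ετ P : ℤ_[q]) : ℚ_[q]) := by
      intro P
      rw [hιR, RingHom.comp_apply, hg2, hφR, hε']
      rfl
    have hετD : ‖ετ D‖ = 1 := by
      have h5 : ¬ ‖ετ D‖ < 1 := fun h => hσD (by rw [← hred]; exact (toZMod_eq_zero_iff _).2 h)
      exact le_antisymm (PadicInt.norm_le_one _) (not_lt.1 h5)
    have hgA : ∀ x ∈ A, ‖g x‖ ≤ 1 := by
      intro x hx
      rw [hA] at hx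
      induction hx using Algebra.adjoin_induction with
      | mem x hx =>
        rw [hS] at hx
        rcases hx with ⟨i, rfl⟩ | rfl | rfl
        · show ‖g (ιR (MvPolynomial.X i))‖ ≤ 1
          rw [hgR]
          exact PadicInt.norm_le_one _
        · rw [map_inv₀, hgR, norm_inv]
          have h1 : ‖((ετ D : ℤ_[q]) : ℚ_[q])‖ = 1 := hετD
          rw [h1, inv_one]
        · rw [hg1]
          exact PadicInt.norm_le_one _
      | algebraMap r =>
        have h1 : g (algebraMap ℤ L r) = ((r : ℤ) : ℚ_[q]) := by simp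
        rw [h1]
        exact Padic.norm_int_le_one r
      | add x y _ _ hx hy =>
        rw [map_add]
        exact (IsUltrametricDist.norm_add_le_max _ _).trans (max_le hx hy)
      | mul x y _ _ hx hy =>
        rw [map_mul, norm_mul]
        exact mul_le_one₀ hx (norm_nonneg _) hy
    obtain ⟨f, hf⟩ : ∃ f : A →+* ℤ_[q], ∀ a, ((f a : ℤ_[q]) : ℚ_[q]) = g a :=
      ⟨{ toFun := fun a => ⟨g a, hgA a a.2⟩
         map_one' := Subtype.ext (by simp)
         map_mul' := fun x y => Subtype.ext (by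
          show g ((x : L) * (y : L)) = g x * g y
          exact map_mul g _ _)
         map_zero' := Subtype.ext (by simp)
         map_add' := fun x y => Subtype.ext (by
          show g ((x : L) + (y : L)) = g x + g y
          exact map_add g _ _) }, fun a => rfl⟩
    refine ⟨f, ?_, ?_⟩
    · intro x y hxy
      have h1 : g x = g y := by rw [← hf, ← hf, hxy]
      exact Subtype.val_injective (g.injective h1)
    · have hfR : ∀ P : R, f (ιA P) = ετ P := by
        intro P
        apply Subtype.val_injective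
        show ((f (ιA P) : ℤ_[q]) : ℚ_[q]) = _
        rw [hf, hιA, hgR]
      have hgen : ∀ (x : L) (hx : x ∈ S), PadicInt.toZMod (f ⟨x, hSA x hx⟩) = ρ ⟨x, hSA x hx⟩ := by
        intro x hx
        have hx' := hx
        rw [hS] at hx'
        rcases hx' with ⟨i, hi⟩ | hi | hi
        · have h1 : (⟨x, hSA x hx⟩ : A) = ιA (MvPolynomial.X i) := by
            apply Subtype.val_injective
            rw [hιA]
            exact hi.symm
          rw [h1, hfR, hred, hσ]
          rfl
        · have h1 : ιA D * ⟨x, hSA x hx⟩ = 1 := by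
            apply Subtype.val_injective
            show ((ιA D : A) : L) * x = 1
            rw [hιA, hi, mul_inv_cancel₀ hιD]
          have h2 := congrArg (fun z => PadicInt.toZMod (f z)) h1
          have h3 := congrArg ρ h1
          simp only [map_mul, map_one] at h2 h3
          rw [hfR, hred] at h2
          have h4 : σ D = ρ (ιA D) := by rw [hσ]; rfl
          rw [← h4] at h3
          exact mul_left_cancel₀ hσD (h2.trans h3.symm)
        · have h1 : (⟨x, hSA x hx⟩ : A) = ⟨θ, hθA⟩ := Subtype.ext hi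
          rw [h1]
          have h2 : f ⟨θ, hθA⟩ = b := by
            apply Subtype.val_injective
            show ((f ⟨θ, hθA⟩ : ℤ_[q]) : ℚ_[q]) = _
            rw [hf]
            exact hg1
          rw [h2, hb2]
      intro a
      obtain ⟨a, ha⟩ := a
      have key : ∀ (x : L) (hx : x ∈ A), PadicInt.toZMod (f ⟨x, hx⟩) = ρ ⟨x, hx⟩ := by
        intro x hx
        have hx2 : x ∈ Algebra.adjoin ℤ S := by rw [← hA]; exact hx
        induction hx2 using Algebra.adjoin_induction with
        | mem x hx' => exact hgen x hx'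
        | algebraMap r =>
          have h1 : (⟨algebraMap ℤ L r, hx⟩ : A) = ((r : ℤ) : A) := by
            apply Subtype.val_injective
            simp
          rw [h1]
          simp
        | add x y hx' hy' ihx ihy =>
          have hxA : x ∈ A := by rw [hA]; exact hx'
          have hyA : y ∈ A := by rw [hA]; exact hy'
          have h1 : (⟨x + y, hx⟩ : A) = ⟨x, hxA⟩ + ⟨y, hyA⟩ := rfl
          rw [h1, map_add, map_add, map_add, ihx hxA, ihy hyA]
        | mul x y hx' hy' ihx ihy =>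
          have hxA : x ∈ A := by rw [hA]; exact hx'
          have hyA : y ∈ A := by rw [hA]; exact hy'
          have h1 : (⟨x * y, hx⟩ : A) = ⟨x, hxA⟩ * ⟨y, hyA⟩ := rfl
          rw [h1, map_mul, map_mul, map_mul, ihx hxA, ihy hyA]
      exact key a ha

/-- **Smooth models.** -/
theorem model_lift {E : Type} [Field E] [CharZero E] (F : Finset E) :
    ∃ A : Subalgebra ℤ E, A.FG ∧ (F : Set E) ⊆ A ∧ ∀ (q : ℕ) [Fact q.Prime] (ρ : A →+* ZMod q),
      ∃ f : A →+* ℤ_[q], Function.Injective f ∧ ∀ a, PadicInt.toZMod (f a) = ρ a := by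
  classical
  let _ : Algebra ℚ E := DivisionRing.toRatAlgebra
  obtain ⟨L, hL⟩ : ∃ L, L = IntermediateField.adjoin ℚ (F : Set E) := ⟨_, rfl⟩
  have hess : Algebra.EssFiniteType ℚ L := by
    rw [hL]
    exact IntermediateField.essFiniteType_iff.2 ⟨F, rfl⟩
  obtain ⟨t, ht⟩ : ∃ t : Finset L, IsTranscendenceBasis ℚ ((↑) : t → L) := by
    obtain ⟨t0, ht0⟩ := IntermediateField.fg_top ℚ L
    have h1 : Algebra.IsAlgebraic (Algebra.adjoin ℚ (t0 : Set L)) L := by
      rw [← IntermediateField.isAlgebraic_adjoin_iff_top, ht0, Algebra.isAlgebraic_iff_isIntegral]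
      refine Algebra.isIntegral_of_surjective IntermediateField.topEquiv.surjective
    have ⟨t, hts, ht⟩ := exists_isTranscendenceBasis_subset (R := ℚ) (t0 : Set L)
    lift t to Finset L using t0.finite_toSet.subset hts
    exact ⟨t, ht⟩
  let κ : Type := (t : Set L)
  let x : κ → L := fun i => i.1
  have hκ : Finite κ := t.finite_toSet
  have hx : IsTranscendenceBasis ℚ x := ht
  have hxZ : AlgebraicIndependent ℤ x :=
    hx.1.restrictScalars (RingHom.injective_int (algebraMap ℤ ℚ))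
  let ι : MvPolynomial κ ℤ →+* L := (MvPolynomial.aeval x : MvPolynomial κ ℤ →ₐ[ℤ] L).toRingHom
  have hι : Function.Injective ι := hxZ
  let ψ : FractionRing (MvPolynomial κ ℤ) →+* L := IsFractionRing.lift hι
  let _ : Algebra (FractionRing (MvPolynomial κ ℤ)) L := ψ.toAlgebra
  have hchar : CharZero (FractionRing (MvPolynomial κ ℤ)) := ψ.charZero_iff ψ.injective |>.2 inferInstance
  let _ : Algebra ℚ (FractionRing (MvPolynomial κ ℤ)) := DivisionRing.toRatAlgebra
  have htow : IsScalarTower ℚ (FractionRing (MvPolynomial κ ℤ)) L :=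
    IsScalarTower.of_algebraMap_eq' (Subsingleton.elim _ _)
  have halg : Algebra.IsAlgebraic (FractionRing (MvPolynomial κ ℤ)) L := by
    refine (hx.isAlgebraic_iff (S := FractionRing (MvPolynomial κ ℤ))).2 (fun i => ?_)
    have h1 : x i = algebraMap (FractionRing (MvPolynomial κ ℤ)) L
        (algebraMap (MvPolynomial κ ℤ) _ (MvPolynomial.X i)) := by
      change x i = ψ _
      rw [IsFractionRing.lift_algebraMap hι]
      simp [ι]
    rw [h1]
    exact isAlgebraic_algebraMap _
  have hess2 : Algebra.EssFiniteType (FractionRing (MvPolynomial κ ℤ)) L :=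
    Algebra.EssFiniteType.of_comp ℚ _ _
  have hfd : FiniteDimensional (FractionRing (MvPolynomial κ ℤ)) L :=
    Algebra.finite_of_essFiniteType_of_isAlgebraic
  have hFL : ∀ y ∈ F, y ∈ L := fun y hy => by rw [hL]; exact IntermediateField.subset_adjoin ℚ _ hy
  obtain ⟨F', hF'⟩ : ∃ F' : Finset L, ∀ (y : E) (hy : y ∈ F), (⟨y, hFL y hy⟩ : L) ∈ F' := by
    refine ⟨F.attach.image fun y => (⟨y.1, hFL y.1 y.2⟩ : L), fun y hy => ?_⟩
    rw [Finset.mem_image]
    exact ⟨⟨y, hy⟩, Finset.mem_attach _ _, rfl⟩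
  obtain ⟨A, hfg, hFA, hA⟩ := model_core (κ := κ) (L := L) F'
  -- transport to `E`
  let g : L →ₐ[ℤ] E := (algebraMap L E).toIntAlgHom
  have hgi : Function.Injective g := (algebraMap L E).injective
  let e : A ≃ₐ[ℤ] A.map g := A.equivMapOfInjective g hgi
  refine ⟨A.map g, hfg.map g, ?_, ?_⟩
  · intro y hy
    exact ⟨⟨y, hFL y hy⟩, hFA (hF' y hy), rfl⟩
  · intro q hq ρ
    obtain ⟨f, hf, hf2⟩ := hA q (ρ.comp (e : A →+* A.map g))
    refine ⟨f.comp (e.symm : A.map g →+* A), hf.comp e.symm.injective, fun a => ?_⟩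
    rw [RingHom.comp_apply, hf2, RingHom.comp_apply]
    congr 1
    exact e.apply_symm_apply a

end Pool.Agent.SNP
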